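import Mathlib
import Pool.Agent.Helper71.TetEll

namespace Pool.Agent.Helper82.SP.Old.EllipsoidRound

open Matrix

theorem result (v : Fin 4 → Fin 3 → ℝ) (a : ℝ) (ha : 0 < a)
    (hv : ∀ i j, i ≠ j → (v i - v j) ⬝ᵥ (v i - v j) = a ^ 2)
    (A : Matrix (Fin 3) (Fin 3) ℝ) (hA : A.PosDef) (c : Fin 3 → ℝ) (S : Set (Fin 3 → ℝ))
    (hS : S = {x | (x - c) ⬝ᵥ (A *ᵥ (x - c)) = 1})
    (hadm : ∀ R ∈ Matrix.specialOrthogonalGroup (Fin 3) ℝ, ∃ t : Fin 3 → ℝ, ∀ i,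
      R *ᵥ v i + t ∈ S) :
    S = {x | (x - c) ⬝ᵥ (x - c) = 3 * a ^ 2 / 8} := by
  subst hS
  have hA' := Pool.Agent.Helper71.Tet.ellipsoid_core v a ha hv A hA c hadm
  ext x
  simp only [Set.mem_ofPred_eq]
  rw [hA', Matrix.smul_mulVec, Matrix.one_mulVec, dotProduct_smul, smul_eq_mul]
  have ha2 : (0:ℝ) < a ^ 2 := by positivity
  constructor
  · intro h
    field_simp at h
    linear_combination (1/8) * h
  · intro h
    rw [h]
    field_simp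

end Pool.Agent.Helper82.SP.Old.EllipsoidRound
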