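import Mathlib
import Pool.Agent.Helper71.TetPlanes

namespace Pool.Agent.Helper82.SP.Old.NoPlanarCover

open Matrix

theorem result (v : Fin 4 → Fin 3 → ℝ) (a : ℝ) (ha : 0 < a)
    (hv : ∀ i j, i ≠ j → (v i - v j) ⬝ᵥ (v i - v j) = a ^ 2)
    (n : ℕ → Fin 3 → ℝ) (k : ℕ → ℝ) (hn : ∀ j, n j ≠ 0)
    (S : Set (Fin 3 → ℝ)) (hS : S ⊆ ⋃ j, {x | n j ⬝ᵥ x = k j}) :
    ¬ ∀ R ∈ Matrix.specialOrthogonalGroup (Fin 3) ℝ, ∃ t : Fin 3 → ℝ, ∀ i,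
      R *ᵥ v i + t ∈ S := by
  intro h
  refine Pool.Agent.Helper71.Tet.planes_core v a ha hv n k hn S ?_ h
  intro x hx
  simpa using Set.mem_iUnion.mp (hS hx)

end Pool.Agent.Helper82.SP.Old.NoPlanarCover
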